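import Pool.Agent.N375.AV.D
import Pool.Agent.Results.MP_e734ed_nt.SparseExceptions

/-!
# The weak form of Hall's conjecture near functions of the values of additive functions and of their compositions

Let `F = f_1 ∘ ... ∘ f_k`, where every `f_i` is dominated by the largest prime factor (`PD`): for example the sum of the
prime factors with multiplicity, every additive function with `f(q^j) ≤ C q^j` which is injective at the large primes,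
the largest prime factor, and Kempner's function. Let `α > 0`, `0 ≤ δ ≤ 1/2`, `C` any constant, `s = 1/3 - δ/6`,
`1 ≤ e < 1 / s` and `κ < 1 - e s`. For all `m ≤ N` but `K N exp(-c (log N)^(1/(k+1)))` the inequality
`|y² - x³| > C |x| ^ (1/2 - δ)` holds for ALL integers `x`, `y` with `y² ≠ x³` and `||x| - α F(m)^e| ≤ F(m)^κ`. The same is
true for `||y| - α F(m)^e| ≤ F(m)^κ` with `s = 2/9 - δ/9`. More generally `G (F m)` takes the place of `α F(m)^e`, where `G`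
is any function with steps bounded below by a positive constant and growth at most `v^e`. The values of `F` are taken with
very large multiplicities, and `F m` is in general of smaller size than `m`, and so this does not follow from the size of
the exceptional set alone.

The tool is `Pool.Agent.N375.AV` (helper375); the exceptional pairs are counted by the starting theorem
`SparseExceptions` of this problem. The lemmas `x_le` and `count_y` are those of `WindowsWithoutExceptions`.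
-/

set_option autoImplicit false

namespace Pool.Agent.Results.MP_e734ed_nt.AdditiveValues

open Finset
open Pool.Agent.N733.TG (Expanding expanding_pow)
open Pool.Agent.N375.AV (PD comp windows pd_additive pd_sopfr pd_largest pd_kempner)

/-- the exceptional pairs -/
def Exc (C δ : ℝ) : Set (ℤ × ℤ) :=
  {e : ℤ × ℤ | e.2 ^ 2 ≠ e.1 ^ 3 ∧ |(e.2 : ℝ) ^ 2 - (e.1 : ℝ) ^ 3| ≤ C * |(e.1 : ℝ)| ^ (1 / 2 - δ)}

lemma count_x (C δ : ℝ) (h0 : 0 ≤ δ) (h1 : δ ≤ 1 / 2) (ε : ℝ) (hε : 0 < ε) : ∃ K : ℝ, ∀ X : ℝ, 1 ≤ X →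
    {e | e ∈ Exc C δ ∧ |((e.1 : ℤ) : ℝ)| ≤ X}.Finite ∧
      ({e | e ∈ Exc C δ ∧ |((e.1 : ℤ) : ℝ)| ≤ X}.ncard : ℝ) ≤ K * X ^ (1 / 3 - δ / 6 + ε) := by
  obtain ⟨K, hK⟩ := SparseExceptions.result C ε hε
  refine ⟨K, fun X hX => ?_⟩
  have e : {e | e ∈ Exc C δ ∧ |((e.1 : ℤ) : ℝ)| ≤ X} = {e : ℤ × ℤ | |(e.1 : ℝ)| ≤ X ∧ e.2 ^ 2 ≠ e.1 ^ 3 ∧
      |(e.2 : ℝ) ^ 2 - (e.1 : ℝ) ^ 3| ≤ C * |(e.1 : ℝ)| ^ (1 / 2 - δ)} := by
    ext e
    constructor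
    · rintro ⟨⟨h2, h3⟩, h4⟩
      exact ⟨h4, h2, h3⟩
    · rintro ⟨h4, h2, h3⟩
      exact ⟨⟨h2, h3⟩, h4⟩
  rw [e]
  exact hK δ h0 h1 X hX

/-- the first coordinate of an exceptional pair is bounded in terms of the second -/
lemma x_le (C δ : ℝ) (h0 : 0 ≤ δ) (h1 : δ ≤ 1 / 2) (e : ℤ × ℤ) (he : e ∈ Exc C δ) (X : ℝ) (hX : 1 ≤ X)
    (hy : |((e.2 : ℤ) : ℝ)| ≤ X) : |((e.1 : ℤ) : ℝ)| ≤ (2 + 2 * |C|) * X ^ ((2 : ℝ) / 3) := by
  obtain ⟨-, h3⟩ := he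
  set t : ℝ := |((e.1 : ℤ) : ℝ)| with ht
  have hC := abs_nonneg C
  have hX0 : 0 < X := by linarith
  have hP1 : 1 ≤ X ^ ((2 : ℝ) / 3) := Real.one_le_rpow hX (by norm_num)
  by_contra hcon
  push Not at hcon
  have ht1 : 1 < t := by
    have : (1 : ℝ) ≤ (2 + 2 * |C|) * X ^ ((2 : ℝ) / 3) := by nlinarith
    linarith
  have h4 : t ^ (1 / 2 - δ) ≤ t := by
    calc t ^ (1 / 2 - δ) ≤ t ^ (1 : ℝ) := Real.rpow_le_rpow_of_exponent_le ht1.le (by linarith)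
      _ = t := Real.rpow_one t
  have h5 : C * t ^ (1 / 2 - δ) ≤ |C| * t :=
    (mul_le_mul_of_nonneg_right (le_abs_self C) (by positivity)).trans
      (mul_le_mul_of_nonneg_left h4 hC)
  have h6 : t ^ 3 ≤ ((e.2 : ℤ) : ℝ) ^ 2 + |((e.2 : ℤ) : ℝ) ^ 2 - ((e.1 : ℤ) : ℝ) ^ 3| := by
    have h7 : t ^ 3 = |((e.1 : ℤ) : ℝ) ^ 3| := by rw [ht, abs_pow]
    rw [h7]
    have h8 := abs_sub_abs_le_abs_sub (((e.1 : ℤ) : ℝ) ^ 3) (((e.2 : ℤ) : ℝ) ^ 2)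
    rw [abs_sub_comm, abs_of_nonneg (sq_nonneg ((e.2 : ℤ) : ℝ))] at h8
    linarith
  have h9 : ((e.2 : ℤ) : ℝ) ^ 2 ≤ X ^ 2 := by
    rw [← sq_abs]
    exact pow_le_pow_left₀ (abs_nonneg _) hy 2
  have h10 : t ^ 3 ≤ X ^ 2 + |C| * t := by linarith
  set D : ℝ := 2 + 2 * |C| with hD
  have hD2 : 2 ≤ D := by rw [hD]; linarith
  have h11 : (D * X ^ ((2 : ℝ) / 3)) ^ 3 < t ^ 3 := pow_lt_pow_left₀ hcon (by positivity) (by norm_num)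
  have h12 : (X ^ ((2 : ℝ) / 3)) ^ 3 = X ^ 2 := by
    rw [← Real.rpow_natCast, ← Real.rpow_mul hX0.le]
    norm_num
  rw [mul_pow, h12] at h11
  have h13 : D ≤ t := by nlinarith
  have h14 : D ^ 2 * t ≤ t ^ 3 := by
    have : D ^ 2 ≤ t ^ 2 := pow_le_pow_left₀ (by linarith) h13 2
    nlinarith
  have h15 : 2 * |C| ≤ D ^ 2 := by nlinarith
  have h16 : 2 * (|C| * t) ≤ D ^ 2 * t := by nlinarith
  have h17 : 8 ≤ D ^ 3 := by
    calc (8 : ℝ) = 2 ^ 3 := by norm_num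
      _ ≤ D ^ 3 := pow_le_pow_left₀ (by norm_num) hD2 3
  have hX2 : 0 < X ^ 2 := by positivity
  nlinarith

lemma count_y (C δ : ℝ) (h0 : 0 ≤ δ) (h1 : δ ≤ 1 / 2) (ε : ℝ) (hε : 0 < ε) : ∃ K : ℝ, ∀ X : ℝ, 1 ≤ X →
    {e | e ∈ Exc C δ ∧ |((e.2 : ℤ) : ℝ)| ≤ X}.Finite ∧
      ({e | e ∈ Exc C δ ∧ |((e.2 : ℤ) : ℝ)| ≤ X}.ncard : ℝ) ≤ K * X ^ (2 / 9 - δ / 9 + ε) := by
  obtain ⟨K, hK⟩ := count_x C δ h0 h1 ε hε
  set D : ℝ := 2 + 2 * |C| with hD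
  have hD2 : 2 ≤ D := by
    have := abs_nonneg C
    rw [hD]
    linarith
  refine ⟨|K| * D ^ (1 / 3 - δ / 6 + ε), fun X hX => ?_⟩
  have hX0 : 0 < X := by linarith
  have hP1 : 1 ≤ X ^ ((2 : ℝ) / 3) := Real.one_le_rpow hX (by norm_num)
  have hY : 1 ≤ D * X ^ ((2 : ℝ) / 3) := by nlinarith
  obtain ⟨hfin, hcard⟩ := hK _ hY
  have hsub : {e | e ∈ Exc C δ ∧ |((e.2 : ℤ) : ℝ)| ≤ X} ⊆
      {e | e ∈ Exc C δ ∧ |((e.1 : ℤ) : ℝ)| ≤ D * X ^ ((2 : ℝ) / 3)} := by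
    rintro e ⟨he, hy⟩
    exact ⟨he, x_le C δ h0 h1 e he X hX hy⟩
  refine ⟨hfin.subset hsub, ?_⟩
  have h2 : ({e | e ∈ Exc C δ ∧ |((e.2 : ℤ) : ℝ)| ≤ X}.ncard : ℝ) ≤
      ({e | e ∈ Exc C δ ∧ |((e.1 : ℤ) : ℝ)| ≤ D * X ^ ((2 : ℝ) / 3)}.ncard : ℝ) := by
    exact_mod_cast Set.ncard_le_ncard hsub hfin
  have h3 : (D * X ^ ((2 : ℝ) / 3)) ^ (1 / 3 - δ / 6 + ε) ≤ D ^ (1 / 3 - δ / 6 + ε) * X ^ (2 / 9 - δ / 9 + ε) := by
    rw [Real.mul_rpow (by linarith) (by positivity), ← Real.rpow_mul hX0.le]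
    apply mul_le_mul_of_nonneg_left _ (by positivity)
    apply Real.rpow_le_rpow_of_exponent_le hX
    linarith
  calc ({e | e ∈ Exc C δ ∧ |((e.2 : ℤ) : ℝ)| ≤ X}.ncard : ℝ)
      ≤ K * (D * X ^ ((2 : ℝ) / 3)) ^ (1 / 3 - δ / 6 + ε) := h2.trans hcard
    _ ≤ |K| * (D ^ (1 / 3 - δ / 6 + ε) * X ^ (2 / 9 - δ / 9 + ε)) :=
        (mul_le_mul_of_nonneg_right (le_abs_self K) (by positivity)).trans
          (mul_le_mul_of_nonneg_left h3 (abs_nonneg K))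
    _ = |K| * D ^ (1 / 3 - δ / 6 + ε) * X ^ (2 / 9 - δ / 9 + ε) := by ring

/-- **Theorem.** Let `F = f_1 ∘ ... ∘ f_k` with `f_1, ..., f_k` dominated by the largest prime factor. Let `G` have steps
`≥ a > 0` and growth at most `v^e`. Let `0 ≤ δ ≤ 1/2`, `C` real and `κ ≥ 0`.
(1) If `e (1/3 - δ/6) + κ < 1`, then for some `c > 0` and `K`, for all `m ≤ N` but `K N exp(-c (log N)^(1/(k+1)))`,
`|y² - x³| > C |x| ^ (1/2 - δ)` for all integers `x`, `y` with `y² ≠ x³` and `||x| - G (F m)| ≤ F(m)^κ`.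
(2) If `e (2/9 - δ/9) + κ < 1`, the same is true for all integers `x`, `y` with `y² ≠ x³` and `||y| - G (F m)| ≤ F(m)^κ`.
(3) Examples of such functions `f`: additive functions with `f(q^j) ≤ C q^j`, injective at the large primes; the sum of
the prime factors with multiplicity; the largest prime factor; Kempner's function. And `α v^e` with `α > 0`, `e ≥ 1` is
an example of `G`. -/
theorem result :
    (∀ fs : List (ℕ → ℕ), (∀ f ∈ fs, PD f) → ∀ (G : ℕ → ℝ) (e : ℝ), Expanding G e → ∀ κ δ C : ℝ, 0 ≤ κ → 0 ≤ δ →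
      δ ≤ 1 / 2 →
      (e * (1 / 3 - δ / 6) + κ < 1 → ∃ c K : ℝ, 0 < c ∧ ∀ N : ℕ, 1 ≤ N →
        ({m : ℕ | 1 ≤ m ∧ m ≤ N ∧ ¬ ∀ x y : ℤ, y ^ 2 ≠ x ^ 3 → |(|x| : ℝ) - G (comp fs m)| ≤ (comp fs m : ℝ) ^ κ →
          C * |(x : ℝ)| ^ (1 / 2 - δ) < |(y : ℝ) ^ 2 - (x : ℝ) ^ 3|}.ncard : ℝ) ≤
          K * N * Real.exp (-(c * Real.log N ^ ((1 : ℝ) / (fs.length + 1))))) ∧
      (e * (2 / 9 - δ / 9) + κ < 1 → ∃ c K : ℝ, 0 < c ∧ ∀ N : ℕ, 1 ≤ N →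
        ({m : ℕ | 1 ≤ m ∧ m ≤ N ∧ ¬ ∀ x y : ℤ, y ^ 2 ≠ x ^ 3 → |(|y| : ℝ) - G (comp fs m)| ≤ (comp fs m : ℝ) ^ κ →
          C * |(x : ℝ)| ^ (1 / 2 - δ) < |(y : ℝ) ^ 2 - (x : ℝ) ^ 3|}.ncard : ℝ) ≤
          K * N * Real.exp (-(c * Real.log N ^ ((1 : ℝ) / (fs.length + 1)))))) ∧
    ((∀ f : ℕ → ℕ, (∀ a b : ℕ, Nat.Coprime a b → f (a * b) = f a + f b) →
        (∃ C : ℕ, ∀ q j : ℕ, q.Prime → 1 ≤ j → f (q ^ j) ≤ C * q ^ j) →
        (∃ P : ℕ, ∀ p q : ℕ, p.Prime → q.Prime → P ≤ p → P ≤ q → f p = f q → p = q) → PD f) ∧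
      PD (fun n => n.primeFactorsList.sum) ∧ PD (fun n => n.primeFactors.sup id) ∧
      PD (fun n => sInf {k : ℕ | n ∣ k.factorial})) ∧
    ∀ α e : ℝ, 0 < α → 1 ≤ e → Expanding (fun v => α * (v : ℝ) ^ e) e := by
  refine ⟨fun fs hf G e hG κ δ C hκ h0 h1 => ⟨fun h2 => ?_, fun h2 => ?_⟩,
    ⟨fun f ha hb hc => pd_additive ha hb hc, pd_sopfr, pd_largest, pd_kempner⟩, fun α d hα hd => expanding_pow hα hd⟩
  · obtain ⟨c, K, hc, hK⟩ := windows (Exc C δ) (fun e => |((e.1 : ℤ) : ℝ)|) fs hf hG (s := 1 / 3 - δ / 6) (κ := κ)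
      (by linarith) hκ h2 (count_x C δ h0 h1)
    refine ⟨c, K, hc, fun N hN => le_trans ?_ (hK N hN)⟩
    have hfin : {m : ℕ | 1 ≤ m ∧ m ≤ N ∧ ∃ t ∈ Exc C δ,
        |(|((t.1 : ℤ) : ℝ)|) - G (comp fs m)| ≤ (comp fs m : ℝ) ^ κ}.Finite :=
      (Set.finite_Icc 1 N).subset fun m hm => ⟨hm.1, hm.2.1⟩
    refine Nat.cast_le.2 (Set.ncard_le_ncard ?_ hfin)
    rintro m ⟨h3, h4, h5⟩
    push Not at h5
    obtain ⟨x, y, hxy, hw, hcon⟩ := h5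
    exact ⟨h3, h4, (x, y), ⟨hxy, hcon⟩, hw⟩
  · obtain ⟨c, K, hc, hK⟩ := windows (Exc C δ) (fun e => |((e.2 : ℤ) : ℝ)|) fs hf hG (s := 2 / 9 - δ / 9) (κ := κ)
      (by linarith) hκ h2 (count_y C δ h0 h1)
    refine ⟨c, K, hc, fun N hN => le_trans ?_ (hK N hN)⟩
    have hfin : {m : ℕ | 1 ≤ m ∧ m ≤ N ∧ ∃ t ∈ Exc C δ,
        |(|((t.2 : ℤ) : ℝ)|) - G (comp fs m)| ≤ (comp fs m : ℝ) ^ κ}.Finite :=
      (Set.finite_Icc 1 N).subset fun m hm => ⟨hm.1, hm.2.1⟩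
    refine Nat.cast_le.2 (Set.ncard_le_ncard ?_ hfin)
    rintro m ⟨h3, h4, h5⟩
    push Not at h5
    obtain ⟨x, y, hxy, hw, hcon⟩ := h5
    exact ⟨h3, h4, (x, y), ⟨hxy, hcon⟩, hw⟩

end Pool.Agent.Results.MP_e734ed_nt.AdditiveValues
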