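import Pool.Agent.N251.LF.Win
import Pool.Agent.Results.MP_e734ed_nt.SparseExceptions

/-!
# The weak form of Hall's conjecture near the values of generic polynomials and generic linear forms

Let `v_i`, `i` in a countable set, be vectors in `ℝ^k`, `O(X^(τ + ε))` of them of norm at most `X` for every `ε > 0`: for
instance `(1, n, …, n^d)` with `τ = 1 / d`, or `(b_1^(n_1), …, b_k^(n_k))`, `b_j > 1`, for all `n_1, …, n_k`, with `τ = 0`, or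
`(n_1^(a_1), …, n_k^(a_k))` with `τ = ∑ 1 / a_j`. Let `0 ≤ δ ≤ 1/2` and `θ < 1`. For all `α` in `ℝ^k` outside a set of
Hausdorff dimension at most `k - 1 + (1/3 - δ/6 + τ) / (1 - θ)` and all `c`, `C`, for all but finitely many `i` the inequality
`|y² - x³| > C |x| ^ (1/2 - δ)` holds for ALL integers `x`, `y` with `y² ≠ x³` and `||x| - α · v_i| ≤ c ‖v_i‖^θ`. The same is
true for `||y| - α · v_i| ≤ c ‖v_i‖^θ` with `2/9 - δ/9` in place of `1/3 - δ/6`. The bound is less than `k` if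
`1/3 - δ/6 + τ + θ < 1`: so for almost all real polynomials `f` of degree `d ≥ 2` and almost all `(α_1, …, α_k)` the inequality
holds for all `x` near `f(n)`, `n` large, and for all large `x` near numbers `α_1 b_1^(n_1) + … + α_k b_k^(n_k)`.

Proof. For each `i` the set of the `α` with an exceptional pair in the window is contained in few slabs between parallel
hyperplanes, by the starting theorem `SparseExceptions` of this problem; they are covered by small cubes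
(`Pool.Agent.N251.LF`). The lemmas `x_le` and `count_y` are those of `WindowsWithoutExceptions`, which is the case `k = 1`.
-/

set_option autoImplicit false

namespace Pool.Agent.Results.MP_e734ed_nt.GenericLinearForms

open Finset
open Pool.Agent.N251.LF (Fam Sq linear_windows)

/-- the exceptional pairs -/
def Exc (C δ : ℝ) : Set (ℤ × ℤ) :=
  {e : ℤ × ℤ | e.2 ^ 2 ≠ e.1 ^ 3 ∧ |(e.2 : ℝ) ^ 2 - (e.1 : ℝ) ^ 3| ≤ C * |(e.1 : ℝ)| ^ (1 / 2 - δ)}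

lemma count_x (C δ : ℝ) (h0 : 0 ≤ δ) (h1 : δ ≤ 1 / 2) (ε : ℝ) (hε : 0 < ε) : ∃ K : ℝ, ∀ X : ℝ, 1 ≤ X →
    {e | e ∈ Exc C δ ∧ |((e.1 : ℤ) : ℝ)| ≤ X}.Finite ∧
      ({e | e ∈ Exc C δ ∧ |((e.1 : ℤ) : ℝ)| ≤ X}.ncard : ℝ) ≤ K * X ^ (1 / 3 - δ / 6 + ε) := by
  obtain ⟨K, hK⟩ := SparseExceptions.result C ε hε
  refine ⟨K, fun X hX => ?_⟩
  have e : {e | e ∈ Exc C δ ∧ |((e.1 : ℤ) : ℝ)| ≤ X} = {e : ℤ × ℤ | |(e.1 : ℝ)| ≤ X ∧ e.2 ^ 2 ≠ e.1 ^ 3 ∧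
      |(e.2 : ℝ) ^ 2 - (e.1 : ℝ) ^ 3| ≤ C * |(e.1 : ℝ)| ^ (1 / 2 - δ)} := by
    ext e
    constructor
    · rintro ⟨⟨h2, h3⟩, h4⟩
      exact ⟨h4, h2, h3⟩
    · rintro ⟨h4, h2, h3⟩
      exact ⟨⟨h2, h3⟩, h4⟩
  rw [e]
  exact hK δ h0 h1 X hX

/-- the first coordinate of an exceptional pair is bounded in terms of the second -/
lemma x_le (C δ : ℝ) (h0 : 0 ≤ δ) (h1 : δ ≤ 1 / 2) (e : ℤ × ℤ) (he : e ∈ Exc C δ) (X : ℝ) (hX : 1 ≤ X)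
    (hy : |((e.2 : ℤ) : ℝ)| ≤ X) : |((e.1 : ℤ) : ℝ)| ≤ (2 + 2 * |C|) * X ^ ((2 : ℝ) / 3) := by
  obtain ⟨-, h3⟩ := he
  set t : ℝ := |((e.1 : ℤ) : ℝ)| with ht
  have hC := abs_nonneg C
  have hX0 : 0 < X := by linarith
  have hP1 : 1 ≤ X ^ ((2 : ℝ) / 3) := Real.one_le_rpow hX (by norm_num)
  by_contra hcon
  push Not at hcon
  have ht1 : 1 < t := by
    have : (1 : ℝ) ≤ (2 + 2 * |C|) * X ^ ((2 : ℝ) / 3) := by nlinarith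
    linarith
  have h4 : t ^ (1 / 2 - δ) ≤ t := by
    calc t ^ (1 / 2 - δ) ≤ t ^ (1 : ℝ) := Real.rpow_le_rpow_of_exponent_le ht1.le (by linarith)
      _ = t := Real.rpow_one t
  have h5 : C * t ^ (1 / 2 - δ) ≤ |C| * t :=
    (mul_le_mul_of_nonneg_right (le_abs_self C) (by positivity)).trans
      (mul_le_mul_of_nonneg_left h4 hC)
  have h6 : t ^ 3 ≤ ((e.2 : ℤ) : ℝ) ^ 2 + |((e.2 : ℤ) : ℝ) ^ 2 - ((e.1 : ℤ) : ℝ) ^ 3| := by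
    have h7 : t ^ 3 = |((e.1 : ℤ) : ℝ) ^ 3| := by rw [ht, abs_pow]
    rw [h7]
    have h8 := abs_sub_abs_le_abs_sub (((e.1 : ℤ) : ℝ) ^ 3) (((e.2 : ℤ) : ℝ) ^ 2)
    rw [abs_sub_comm, abs_of_nonneg (sq_nonneg ((e.2 : ℤ) : ℝ))] at h8
    linarith
  have h9 : ((e.2 : ℤ) : ℝ) ^ 2 ≤ X ^ 2 := by
    rw [← sq_abs]
    exact pow_le_pow_left₀ (abs_nonneg _) hy 2
  have h10 : t ^ 3 ≤ X ^ 2 + |C| * t := by linarith
  set D : ℝ := 2 + 2 * |C| with hD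
  have hD2 : 2 ≤ D := by rw [hD]; linarith
  have h11 : (D * X ^ ((2 : ℝ) / 3)) ^ 3 < t ^ 3 := pow_lt_pow_left₀ hcon (by positivity) (by norm_num)
  have h12 : (X ^ ((2 : ℝ) / 3)) ^ 3 = X ^ 2 := by
    rw [← Real.rpow_natCast, ← Real.rpow_mul hX0.le]
    norm_num
  rw [mul_pow, h12] at h11
  have h13 : D ≤ t := by nlinarith
  have h14 : D ^ 2 * t ≤ t ^ 3 := by
    have : D ^ 2 ≤ t ^ 2 := pow_le_pow_left₀ (by linarith) h13 2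
    nlinarith
  have h15 : 2 * |C| ≤ D ^ 2 := by nlinarith
  have h16 : 2 * (|C| * t) ≤ D ^ 2 * t := by nlinarith
  have h17 : 8 ≤ D ^ 3 := by
    calc (8 : ℝ) = 2 ^ 3 := by norm_num
      _ ≤ D ^ 3 := pow_le_pow_left₀ (by norm_num) hD2 3
  have hX2 : 0 < X ^ 2 := by positivity
  nlinarith

lemma count_y (C δ : ℝ) (h0 : 0 ≤ δ) (h1 : δ ≤ 1 / 2) (ε : ℝ) (hε : 0 < ε) : ∃ K : ℝ, ∀ X : ℝ, 1 ≤ X →
    {e | e ∈ Exc C δ ∧ |((e.2 : ℤ) : ℝ)| ≤ X}.Finite ∧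
      ({e | e ∈ Exc C δ ∧ |((e.2 : ℤ) : ℝ)| ≤ X}.ncard : ℝ) ≤ K * X ^ (2 / 9 - δ / 9 + ε) := by
  obtain ⟨K, hK⟩ := count_x C δ h0 h1 ε hε
  set D : ℝ := 2 + 2 * |C| with hD
  have hD2 : 2 ≤ D := by
    have := abs_nonneg C
    rw [hD]
    linarith
  refine ⟨|K| * D ^ (1 / 3 - δ / 6 + ε), fun X hX => ?_⟩
  have hX0 : 0 < X := by linarith
  have hP1 : 1 ≤ X ^ ((2 : ℝ) / 3) := Real.one_le_rpow hX (by norm_num)
  have hY : 1 ≤ D * X ^ ((2 : ℝ) / 3) := by nlinarith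
  obtain ⟨hfin, hcard⟩ := hK _ hY
  have hsub : {e | e ∈ Exc C δ ∧ |((e.2 : ℤ) : ℝ)| ≤ X} ⊆
      {e | e ∈ Exc C δ ∧ |((e.1 : ℤ) : ℝ)| ≤ D * X ^ ((2 : ℝ) / 3)} := by
    rintro e ⟨he, hy⟩
    exact ⟨he, x_le C δ h0 h1 e he X hX hy⟩
  refine ⟨hfin.subset hsub, ?_⟩
  have h2 : ({e | e ∈ Exc C δ ∧ |((e.2 : ℤ) : ℝ)| ≤ X}.ncard : ℝ) ≤
      ({e | e ∈ Exc C δ ∧ |((e.1 : ℤ) : ℝ)| ≤ D * X ^ ((2 : ℝ) / 3)}.ncard : ℝ) := by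
    exact_mod_cast Set.ncard_le_ncard hsub hfin
  have h3 : (D * X ^ ((2 : ℝ) / 3)) ^ (1 / 3 - δ / 6 + ε) ≤ D ^ (1 / 3 - δ / 6 + ε) * X ^ (2 / 9 - δ / 9 + ε) := by
    rw [Real.mul_rpow (by linarith) (by positivity), ← Real.rpow_mul hX0.le]
    apply mul_le_mul_of_nonneg_left _ (by positivity)
    apply Real.rpow_le_rpow_of_exponent_le hX
    linarith
  calc ({e | e ∈ Exc C δ ∧ |((e.2 : ℤ) : ℝ)| ≤ X}.ncard : ℝ)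
      ≤ K * (D * X ^ ((2 : ℝ) / 3)) ^ (1 / 3 - δ / 6 + ε) := h2.trans hcard
    _ ≤ |K| * (D ^ (1 / 3 - δ / 6 + ε) * X ^ (2 / 9 - δ / 9 + ε)) :=
        (mul_le_mul_of_nonneg_right (le_abs_self K) (by positivity)).trans
          (mul_le_mul_of_nonneg_left h3 (abs_nonneg K))
    _ = |K| * D ^ (1 / 3 - δ / 6 + ε) * X ^ (2 / 9 - δ / 9 + ε) := by ring

/-- one exceptional set of `α` for all constants `C` -/
lemma all_C {k : ℕ} {ι : Type} {v : ι → Fin k → ℝ} {τ θ δ s : ℝ} (hv : Fam v τ) (hτ : 0 ≤ τ) (hθ : θ < 1) (hs : 0 ≤ s)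
    (h : ℤ × ℤ → ℝ) (hcount : ∀ C : ℝ, ∀ ε : ℝ, 0 < ε → ∃ K : ℝ, ∀ X : ℝ, 1 ≤ X →
      {e | e ∈ Exc C δ ∧ h e ≤ X}.Finite ∧ ({e | e ∈ Exc C δ ∧ h e ≤ X}.ncard : ℝ) ≤ K * X ^ (s + ε)) :
    ∃ E : Set (Fin k → ℝ), dimH E ≤ ENNReal.ofReal ((k : ℝ) - 1 + (s + τ) / (1 - θ)) ∧
      ∀ α, α ∉ E → ∀ c C : ℝ, {i | ¬ ∀ x y : ℤ, y ^ 2 ≠ x ^ 3 →
        |h (x, y) - ∑ j, α j * v i j| ≤ c * ‖v i‖ ^ θ →
          C * |(x : ℝ)| ^ (1 / 2 - δ) < |(y : ℝ) ^ 2 - (x : ℝ) ^ 3|}.Finite := by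
  have key := fun n : ℕ => linear_windows (Exc (n : ℝ) δ) h v hs hτ hθ hv (hcount (n : ℝ))
  choose E hE hE2 using key
  refine ⟨⋃ n, E n, ?_, fun α hα c C => ?_⟩
  · rw [dimH_iUnion]
    exact iSup_le hE
  · rw [Set.mem_iUnion] at hα
    push Not at hα
    obtain ⟨n, hn⟩ := exists_nat_ge C
    refine (hE2 n α (hα n) c).subset ?_
    intro i hi
    simp only [Set.mem_ofPred_eq] at hi ⊢
    push Not at hi
    obtain ⟨x, y, hxy, h2, hcon⟩ := hi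
    refine ⟨(x, y), ⟨hxy, hcon.trans ?_⟩, h2⟩
    exact mul_le_mul_of_nonneg_right hn (Real.rpow_nonneg (abs_nonneg _) _)

/-- **Theorem.** Let `v` be a family of vectors in `ℝ^k` of exponent `τ ≥ 0`, `0 ≤ δ ≤ 1/2` and `θ < 1`.
(1) For all `α` in `ℝ^k` outside a set of Hausdorff dimension at most `k - 1 + (1/3 - δ/6 + τ) / (1 - θ)`, all `c` and `C`, for
all but finitely many `i`, `|y² - x³| > C |x| ^ (1/2 - δ)` for ALL integers `x`, `y` with `y² ≠ x³` and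
`||x| - ∑ α_j v_(i,j)| ≤ c ‖v_i‖^θ`.
(2) For all `α` outside a set of Hausdorff dimension at most `k - 1 + (2/9 - δ/9 + τ) / (1 - θ)` the same holds for ALL
integers `x`, `y` with `y² ≠ x³` and `||y| - ∑ α_j v_(i,j)| ≤ c ‖v_i‖^θ`.
(3) The vectors `(1, n, …, n^d)` are a family of exponent `1 / d`, the `(b_1^(n_1), …, b_k^(n_k))` with `b_j > 1` one of
exponent `0`, the `(n_1^(a_1), …, n_k^(a_k))` with `a_j > 0` one of exponent `∑ 1 / a_j`, and the `(u_1(n_1), …, u_k(n_k))` one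
of exponent `∑ τ_j`, if the sequences `u_j` have exponents `τ_j`. -/
theorem result :
    (∀ (k : ℕ) (ι : Type) (v : ι → Fin k → ℝ) (τ : ℝ), Fam v τ → 0 ≤ τ → ∀ θ δ : ℝ, θ < 1 → 0 ≤ δ → δ ≤ 1 / 2 →
      (∃ E : Set (Fin k → ℝ), dimH E ≤ ENNReal.ofReal ((k : ℝ) - 1 + (1 / 3 - δ / 6 + τ) / (1 - θ)) ∧
        ∀ α, α ∉ E → ∀ c C : ℝ, {i | ¬ ∀ x y : ℤ, y ^ 2 ≠ x ^ 3 →
          |(|x| : ℝ) - ∑ j, α j * v i j| ≤ c * ‖v i‖ ^ θ →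
            C * |(x : ℝ)| ^ (1 / 2 - δ) < |(y : ℝ) ^ 2 - (x : ℝ) ^ 3|}.Finite) ∧
      (∃ E : Set (Fin k → ℝ), dimH E ≤ ENNReal.ofReal ((k : ℝ) - 1 + (2 / 9 - δ / 9 + τ) / (1 - θ)) ∧
        ∀ α, α ∉ E → ∀ c C : ℝ, {i | ¬ ∀ x y : ℤ, y ^ 2 ≠ x ^ 3 →
          |(|y| : ℝ) - ∑ j, α j * v i j| ≤ c * ‖v i‖ ^ θ →
            C * |(x : ℝ)| ^ (1 / 2 - δ) < |(y : ℝ) ^ 2 - (x : ℝ) ^ 3|}.Finite)) ∧
    (∀ d : ℕ, 1 ≤ d → Fam (fun (n : ℕ) (j : Fin (d + 1)) => (n : ℝ) ^ (j : ℕ)) (1 / d)) ∧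
    (∀ (k : ℕ) (b : Fin k → ℝ), (∀ j, 1 < b j) → Fam (fun (n : Fin k → ℕ) (j : Fin k) => b j ^ n j) 0) ∧
    (∀ (k : ℕ) (a : Fin k → ℝ), (∀ j, 0 < a j) →
      Fam (fun (n : Fin k → ℕ) (j : Fin k) => (n j : ℝ) ^ a j) (∑ j, 1 / a j)) ∧
    ∀ (k : ℕ) (u : Fin k → ℕ → ℝ) (τ : Fin k → ℝ), (∀ j, Sq (u j) (τ j)) →
      Fam (fun (n : Fin k → ℕ) (j : Fin k) => u j (n j)) (∑ j, τ j) :=
  ⟨fun _ _ _ _ hv hτ _ _ hθ h0 h1 =>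
    ⟨all_C hv hτ hθ (by linarith) (fun e => |((e.1 : ℤ) : ℝ)|) (fun C => count_x C _ h0 h1),
      all_C hv hτ hθ (by linarith) (fun e => |((e.2 : ℤ) : ℝ)|) (fun C => count_y C _ h0 h1)⟩,
    Pool.Agent.N251.LF.examples⟩

end Pool.Agent.Results.MP_e734ed_nt.GenericLinearForms
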