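import Pool.Agent.N671.DA.Win
import Pool.Agent.Results.MP_e734ed_nt.SparseExceptions

/-!
# The weak form of Hall's conjecture near functions of the denominators of good approximations

Let `α_1, …, α_m` be real numbers. We consider the natural numbers `q` with `‖q α_j - β_j‖ ≤ c q^(-τ)` for all `j`, `‖x‖` the
distance to the nearest integer; for `β = 0`, `c = 1`, `τ = 1 / m` these include the denominators of all best simultaneous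
approximations (the denominators of the convergents for `m = 1`). They form a very sparse sequence, with gaps growing
exponentially for almost all `α` if `τ = 1 / m`. We show: let `G` be a function with steps bounded below by a positive constant
and growth at most `v^e`, for example `a v^e`, and let `0 ≤ δ ≤ 1/2`. For all `α` in `ℝ^m` outside a set of Hausdorff dimension
at most `(m + e (1/3 - δ/6) + κ) / (1 + τ)`, all `c` and all `C`, for all but finitely many such `q` the inequality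
`|y² - x³| > C |x| ^ (1/2 - δ)` holds for ALL integers `x`, `y` with `y² ≠ x³` and `||x| - G q| ≤ q^κ`. The same is true for
`||y| - G q| ≤ q^κ` with `2/9 - δ/9` in place of `1/3 - δ/6`. For `τ = 1 / m` the bounds are less than `m` if
`e (1/3 - δ/6) + κ < 1`, or `e (2/9 - δ/9) + κ < 1`; and so the statements hold for almost all `α`.

Proof. The `q` such that the first coordinate of some exceptional pair is near `G q` form a set with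
`O(X^(e (1/3 - δ/6) + κ + ε))` elements up to `X`, by the starting theorem `SparseExceptions` of this problem; and the `α` with
`‖q α_j - β_j‖ ≤ c q^(-τ)` for all `j` and infinitely many `q` of such a set are covered by few small cubes
(`Pool.Agent.N671.DA`, helper671). The lemmas `x_le` and `count_y` are those of `WindowsWithoutExceptions`.
-/

set_option autoImplicit false

namespace Pool.Agent.Results.MP_e734ed_nt.SimultaneousApproximations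

open Finset
open Pool.Agent.N671.DA (Solves Expanding expanding_pow approx_windows)

/-- the exceptional pairs -/
def Exc (C δ : ℝ) : Set (ℤ × ℤ) :=
  {e : ℤ × ℤ | e.2 ^ 2 ≠ e.1 ^ 3 ∧ |(e.2 : ℝ) ^ 2 - (e.1 : ℝ) ^ 3| ≤ C * |(e.1 : ℝ)| ^ (1 / 2 - δ)}

lemma count_x (C δ : ℝ) (h0 : 0 ≤ δ) (h1 : δ ≤ 1 / 2) (ε : ℝ) (hε : 0 < ε) : ∃ K : ℝ, ∀ X : ℝ, 1 ≤ X →
    {e | e ∈ Exc C δ ∧ |((e.1 : ℤ) : ℝ)| ≤ X}.Finite ∧
      ({e | e ∈ Exc C δ ∧ |((e.1 : ℤ) : ℝ)| ≤ X}.ncard : ℝ) ≤ K * X ^ (1 / 3 - δ / 6 + ε) := by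
  obtain ⟨K, hK⟩ := SparseExceptions.result C ε hε
  refine ⟨K, fun X hX => ?_⟩
  have e : {e | e ∈ Exc C δ ∧ |((e.1 : ℤ) : ℝ)| ≤ X} = {e : ℤ × ℤ | |(e.1 : ℝ)| ≤ X ∧ e.2 ^ 2 ≠ e.1 ^ 3 ∧
      |(e.2 : ℝ) ^ 2 - (e.1 : ℝ) ^ 3| ≤ C * |(e.1 : ℝ)| ^ (1 / 2 - δ)} := by
    ext e
    constructor
    · rintro ⟨⟨h2, h3⟩, h4⟩
      exact ⟨h4, h2, h3⟩
    · rintro ⟨h4, h2, h3⟩
      exact ⟨⟨h2, h3⟩, h4⟩
  rw [e]
  exact hK δ h0 h1 X hX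

/-- the first coordinate of an exceptional pair is bounded in terms of the second -/
lemma x_le (C δ : ℝ) (h0 : 0 ≤ δ) (h1 : δ ≤ 1 / 2) (e : ℤ × ℤ) (he : e ∈ Exc C δ) (X : ℝ) (hX : 1 ≤ X)
    (hy : |((e.2 : ℤ) : ℝ)| ≤ X) : |((e.1 : ℤ) : ℝ)| ≤ (2 + 2 * |C|) * X ^ ((2 : ℝ) / 3) := by
  obtain ⟨-, h3⟩ := he
  set t : ℝ := |((e.1 : ℤ) : ℝ)| with ht
  have hC := abs_nonneg C
  have hX0 : 0 < X := by linarith
  have hP1 : 1 ≤ X ^ ((2 : ℝ) / 3) := Real.one_le_rpow hX (by norm_num)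
  by_contra hcon
  push Not at hcon
  have ht1 : 1 < t := by
    have : (1 : ℝ) ≤ (2 + 2 * |C|) * X ^ ((2 : ℝ) / 3) := by nlinarith
    linarith
  have h4 : t ^ (1 / 2 - δ) ≤ t := by
    calc t ^ (1 / 2 - δ) ≤ t ^ (1 : ℝ) := Real.rpow_le_rpow_of_exponent_le ht1.le (by linarith)
      _ = t := Real.rpow_one t
  have h5 : C * t ^ (1 / 2 - δ) ≤ |C| * t :=
    (mul_le_mul_of_nonneg_right (le_abs_self C) (by positivity)).trans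
      (mul_le_mul_of_nonneg_left h4 hC)
  have h6 : t ^ 3 ≤ ((e.2 : ℤ) : ℝ) ^ 2 + |((e.2 : ℤ) : ℝ) ^ 2 - ((e.1 : ℤ) : ℝ) ^ 3| := by
    have h7 : t ^ 3 = |((e.1 : ℤ) : ℝ) ^ 3| := by rw [ht, abs_pow]
    rw [h7]
    have h8 := abs_sub_abs_le_abs_sub (((e.1 : ℤ) : ℝ) ^ 3) (((e.2 : ℤ) : ℝ) ^ 2)
    rw [abs_sub_comm, abs_of_nonneg (sq_nonneg ((e.2 : ℤ) : ℝ))] at h8
    linarith
  have h9 : ((e.2 : ℤ) : ℝ) ^ 2 ≤ X ^ 2 := by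
    rw [← sq_abs]
    exact pow_le_pow_left₀ (abs_nonneg _) hy 2
  have h10 : t ^ 3 ≤ X ^ 2 + |C| * t := by linarith
  set D : ℝ := 2 + 2 * |C| with hD
  have hD2 : 2 ≤ D := by rw [hD]; linarith
  have h11 : (D * X ^ ((2 : ℝ) / 3)) ^ 3 < t ^ 3 := pow_lt_pow_left₀ hcon (by positivity) (by norm_num)
  have h12 : (X ^ ((2 : ℝ) / 3)) ^ 3 = X ^ 2 := by
    rw [← Real.rpow_natCast, ← Real.rpow_mul hX0.le]
    norm_num
  rw [mul_pow, h12] at h11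
  have h13 : D ≤ t := by nlinarith
  have h14 : D ^ 2 * t ≤ t ^ 3 := by
    have : D ^ 2 ≤ t ^ 2 := pow_le_pow_left₀ (by linarith) h13 2
    nlinarith
  have h15 : 2 * |C| ≤ D ^ 2 := by nlinarith
  have h16 : 2 * (|C| * t) ≤ D ^ 2 * t := by nlinarith
  have h17 : 8 ≤ D ^ 3 := by
    calc (8 : ℝ) = 2 ^ 3 := by norm_num
      _ ≤ D ^ 3 := pow_le_pow_left₀ (by norm_num) hD2 3
  have hX2 : 0 < X ^ 2 := by positivity
  nlinarith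

lemma count_y (C δ : ℝ) (h0 : 0 ≤ δ) (h1 : δ ≤ 1 / 2) (ε : ℝ) (hε : 0 < ε) : ∃ K : ℝ, ∀ X : ℝ, 1 ≤ X →
    {e | e ∈ Exc C δ ∧ |((e.2 : ℤ) : ℝ)| ≤ X}.Finite ∧
      ({e | e ∈ Exc C δ ∧ |((e.2 : ℤ) : ℝ)| ≤ X}.ncard : ℝ) ≤ K * X ^ (2 / 9 - δ / 9 + ε) := by
  obtain ⟨K, hK⟩ := count_x C δ h0 h1 ε hε
  set D : ℝ := 2 + 2 * |C| with hD
  have hD2 : 2 ≤ D := by
    have := abs_nonneg C
    rw [hD]
    linarith
  refine ⟨|K| * D ^ (1 / 3 - δ / 6 + ε), fun X hX => ?_⟩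
  have hX0 : 0 < X := by linarith
  have hP1 : 1 ≤ X ^ ((2 : ℝ) / 3) := Real.one_le_rpow hX (by norm_num)
  have hY : 1 ≤ D * X ^ ((2 : ℝ) / 3) := by nlinarith
  obtain ⟨hfin, hcard⟩ := hK _ hY
  have hsub : {e | e ∈ Exc C δ ∧ |((e.2 : ℤ) : ℝ)| ≤ X} ⊆
      {e | e ∈ Exc C δ ∧ |((e.1 : ℤ) : ℝ)| ≤ D * X ^ ((2 : ℝ) / 3)} := by
    rintro e ⟨he, hy⟩
    exact ⟨he, x_le C δ h0 h1 e he X hX hy⟩
  refine ⟨hfin.subset hsub, ?_⟩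
  have h2 : ({e | e ∈ Exc C δ ∧ |((e.2 : ℤ) : ℝ)| ≤ X}.ncard : ℝ) ≤
      ({e | e ∈ Exc C δ ∧ |((e.1 : ℤ) : ℝ)| ≤ D * X ^ ((2 : ℝ) / 3)}.ncard : ℝ) := by
    exact_mod_cast Set.ncard_le_ncard hsub hfin
  have h3 : (D * X ^ ((2 : ℝ) / 3)) ^ (1 / 3 - δ / 6 + ε) ≤ D ^ (1 / 3 - δ / 6 + ε) * X ^ (2 / 9 - δ / 9 + ε) := by
    rw [Real.mul_rpow (by linarith) (by positivity), ← Real.rpow_mul hX0.le]
    apply mul_le_mul_of_nonneg_left _ (by positivity)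
    apply Real.rpow_le_rpow_of_exponent_le hX
    linarith
  calc ({e | e ∈ Exc C δ ∧ |((e.2 : ℤ) : ℝ)| ≤ X}.ncard : ℝ)
      ≤ K * (D * X ^ ((2 : ℝ) / 3)) ^ (1 / 3 - δ / 6 + ε) := h2.trans hcard
    _ ≤ |K| * (D ^ (1 / 3 - δ / 6 + ε) * X ^ (2 / 9 - δ / 9 + ε)) :=
        (mul_le_mul_of_nonneg_right (le_abs_self K) (by positivity)).trans
          (mul_le_mul_of_nonneg_left h3 (abs_nonneg K))
    _ = |K| * D ^ (1 / 3 - δ / 6 + ε) * X ^ (2 / 9 - δ / 9 + ε) := by ring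

/-- one exceptional set of `α` for all constants `C` -/
lemma all_C {G : ℕ → ℝ} {e : ℝ} (hG : Expanding G e) {κ δ s : ℝ} (hκ : 0 ≤ κ) (hκ1 : κ ≤ 1) (hs : 0 ≤ s)
    (h : ℤ × ℤ → ℝ) (hcount : ∀ C : ℝ, ∀ ε : ℝ, 0 < ε → ∃ K : ℝ, ∀ X : ℝ, 1 ≤ X →
      {e | e ∈ Exc C δ ∧ h e ≤ X}.Finite ∧ ({e | e ∈ Exc C δ ∧ h e ≤ X}.ncard : ℝ) ≤ K * X ^ (s + ε))
    {m : ℕ} (β : Fin m → ℝ) {τ : ℝ} (hτ : 0 < τ) :
    ∃ E : Set (Fin m → ℝ), dimH E ≤ ENNReal.ofReal ((m + (e * s + κ)) / (1 + τ)) ∧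
      ∀ α, α ∉ E → ∀ c C : ℝ, ∃ Q : ℕ, ∀ q : ℕ, Q ≤ q → Solves α β q (c * (q : ℝ) ^ (-τ)) →
        ∀ x y : ℤ, y ^ 2 ≠ x ^ 3 → |h (x, y) - G q| ≤ (q : ℝ) ^ κ →
          C * |(x : ℝ)| ^ (1 / 2 - δ) < |(y : ℝ) ^ 2 - (x : ℝ) ^ 3| := by
  have key := fun n : ℕ => approx_windows (Exc (n : ℝ) δ) h hG hs hκ hκ1 (hcount (n : ℝ)) β hτ
  choose E hE hE2 using key
  refine ⟨⋃ n, E n, ?_, fun α hα c C => ?_⟩
  · rw [dimH_iUnion]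
    exact iSup_le hE
  · rw [Set.mem_iUnion] at hα
    push Not at hα
    obtain ⟨n, hn⟩ := exists_nat_ge C
    obtain ⟨Q, hQ⟩ := hE2 n α (hα n) c
    refine ⟨Q, fun q hq h1 x y hxy h2 => ?_⟩
    by_contra hcon
    push Not at hcon
    refine hQ q hq h1 (x, y) ⟨hxy, hcon.trans ?_⟩ h2
    exact mul_le_mul_of_nonneg_right hn (Real.rpow_nonneg (abs_nonneg _) _)

/-- **Theorem.** Let `G` have steps `≥ a > 0` and growth at most `v^e`. Let `0 ≤ δ ≤ 1/2`, `0 ≤ κ ≤ 1`, `β` in `ℝ^m` and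
`τ > 0`.
(1) For all `α` in `ℝ^m` outside a set of Hausdorff dimension at most `(m + e (1/3 - δ/6) + κ) / (1 + τ)`, all `c` and `C`, for
all large `q` with `‖q α_j - β_j‖ ≤ c q^(-τ)` for all `j`, `|y² - x³| > C |x| ^ (1/2 - δ)` for ALL integers `x`, `y` with
`y² ≠ x³` and `||x| - G q| ≤ q^κ`.
(2) For all `α` in `ℝ^m` outside a set of Hausdorff dimension at most `(m + e (2/9 - δ/9) + κ) / (1 + τ)`, all `c` and `C`, for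
all large such `q`, the same inequality holds for ALL integers `x`, `y` with `y² ≠ x³` and `||y| - G q| ≤ q^κ`.
(3) The functions `a v^e` with `a > 0`, `e ≥ 1` are examples of `G`. -/
theorem result :
    (∀ (G : ℕ → ℝ) (e : ℝ), Expanding G e → ∀ κ δ : ℝ, 0 ≤ κ → κ ≤ 1 → 0 ≤ δ → δ ≤ 1 / 2 →
      ∀ (m : ℕ) (β : Fin m → ℝ) (τ : ℝ), 0 < τ →
      (∃ E : Set (Fin m → ℝ), dimH E ≤ ENNReal.ofReal ((m + (e * (1 / 3 - δ / 6) + κ)) / (1 + τ)) ∧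
        ∀ α, α ∉ E → ∀ c C : ℝ, ∃ Q : ℕ, ∀ q : ℕ, Q ≤ q → Solves α β q (c * (q : ℝ) ^ (-τ)) →
          ∀ x y : ℤ, y ^ 2 ≠ x ^ 3 → |(|x| : ℝ) - G q| ≤ (q : ℝ) ^ κ →
            C * |(x : ℝ)| ^ (1 / 2 - δ) < |(y : ℝ) ^ 2 - (x : ℝ) ^ 3|) ∧
      (∃ E : Set (Fin m → ℝ), dimH E ≤ ENNReal.ofReal ((m + (e * (2 / 9 - δ / 9) + κ)) / (1 + τ)) ∧
        ∀ α, α ∉ E → ∀ c C : ℝ, ∃ Q : ℕ, ∀ q : ℕ, Q ≤ q → Solves α β q (c * (q : ℝ) ^ (-τ)) →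
          ∀ x y : ℤ, y ^ 2 ≠ x ^ 3 → |(|y| : ℝ) - G q| ≤ (q : ℝ) ^ κ →
            C * |(x : ℝ)| ^ (1 / 2 - δ) < |(y : ℝ) ^ 2 - (x : ℝ) ^ 3|)) ∧
    ∀ a e : ℝ, 0 < a → 1 ≤ e → Expanding (fun v => a * (v : ℝ) ^ e) e :=
  ⟨fun _ _ hG _ _ hκ hκ1 h0 h1 _ β _ hτ =>
    ⟨all_C hG hκ hκ1 (by linarith) (fun e => |((e.1 : ℤ) : ℝ)|) (fun C => count_x C _ h0 h1) β hτ,
      all_C hG hκ hκ1 (by linarith) (fun e => |((e.2 : ℤ) : ℝ)|) (fun C => count_y C _ h0 h1) β hτ⟩,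
    fun _ _ ha he => expanding_pow ha he⟩

end Pool.Agent.Results.MP_e734ed_nt.SimultaneousApproximations
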